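import Pool.Agent.AFL.Stmts

/-!
# Squad AFL, row PTG (helper46): the entries
-/

set_option autoImplicit false

open MeasureTheory ProbabilityTheory

open scoped BigOperators Matrix

noncomputable section

namespace Pool.Agent.AFL.H46

open Pool.Agent.LE.QF Pool.Agent.AFJ Pool.Agent.ABY

/-- row PTG -/
theorem ptg : PtgStmt := by
  intro jal bkj enb eub pta X _ _ F c₀ C₀ q ok pt bj net net0 x hx y hy
  have hp := pta eub X F c₀ C₀ q ok pt net net0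
  obtain ⟨p1, -, -, -, -, -, p7, p8, -, p10, -⟩ := hp
  have hbR : F.b ⊆ F.Rg := ok.hb.1.trans ok.hb.2.1
  have hbQ : F.b ⊆ F.Q := ok.hQ.1.trans ok.hQ.2.1
  have hκv := ok.num.1
  have hr : (0 : ℝ) ≤ F.r := le_trans zero_le_one ok.num.2.2.1
  have hN : 0 ≤ F.N := ok.num.2.2.2.2.2.2.1
  have hδ : 0 < F.δ := ok.num.2.2.2.2.2.2.2.1
  have hL : 0 < F.L := ok.num.2.2.2.2.2.2.2.2.1
  have hμ : 0 ≤ F.μs := by
    unfold Fl.μs
    positivity
  have hsum : ∀ a ∈ F.Q, (∑ c ∈ F.b, F.k q.1 c * KK (F.Gt q) a c) ≤ F.r := by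
    intro a ha
    have h1 := (eub X (F.Gt q) (F.k q.1) F.b F.b (fun _ => 0) net (Finset.Subset.refl _)).2.2.2.2.2 a
    have h2 : 0 ≤ ∑ z ∈ F.bᶜ, F.k q.1 z * KK (F.Gt q) a z :=
      Finset.sum_nonneg fun z _ => mul_nonneg (net.hκ z).le (sq_nonneg _)
    have h3 := (p8 a ha).1
    have h4 : rho (F.Gt q) (F.k q.1) F.b a = ∑ c ∈ F.b, F.k q.1 c * KK (F.Gt q) a c := rfl
    linarith
  have he := enb X (F.Gt q) (F.k q.1) (mub (F.Gt q) F.mb F.b) F.b F.b F.Q F.κv F.κv F.μs F.r net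
    hκv hκv hμ hr hbQ (fun c hc => p1 c (hbR hc)) (fun c hc => p1 c (hbR hc)) (fun c _ => p7 c)
    (fun c hc => by unfold mub; rw [if_neg hc]) hsum
  obtain ⟨-, e2, -, -, -, e6⟩ := he
  have hxQ := ok.hQ.2.1 hx
  have hyQ := ok.hQ.2.1 hy
  have hj := (bkj jal X F.b q F.Gt F.k (F.Gt q) (F.k q.1) F.mb bj).2.2 x y
  have hJ := jal F.b ℂ q
  have hc := hJ.1 (F.G0 x y)
  have hd := (hJ.2.2.1 _ _ _ _ _ _ _ _ hj hc).2.1
  refine ⟨_, _, hd, ?_, ?_⟩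
  · rw [sub_zero]
    exact e2 x hxQ y hyQ
  · have h1 : ∑ c : F.b, ‖-(F.Gt q x (c : X) * F.Gt q (c : X) y) - 0‖ ^ 2 =
        ∑ c ∈ F.b, ‖F.Gt q x c * F.Gt q c y‖ ^ 2 := by
      rw [← Finset.sum_coe_sort F.b (fun c => ‖F.Gt q x c * F.Gt q c y‖ ^ 2)]
      refine Finset.sum_congr rfl fun c _ => ?_
      rw [sub_zero, norm_neg]
    rw [h1]
    refine (e6 x y).trans ?_
    have hla : ∀ a ∈ F.Q1, LaR (F.Gt q) F.b a ≤ F.L := by
      intro a ha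
      refine le_trans ?_ (p10 a ha)
      refine Finset.sum_le_sum_of_subset_of_nonneg ?_ (fun z _ _ => sq_nonneg _)
      intro c hc
      exact Finset.mem_inter.2 ⟨hbR hc, hbQ hc⟩
    have h2 := Real.sqrt_le_sqrt (hla x hx)
    have h3 := Real.sqrt_le_sqrt (hla y hy)
    calc Real.sqrt (LaR (F.Gt q) F.b x) * Real.sqrt (LaR (F.Gt q) F.b y)
        ≤ Real.sqrt F.L * Real.sqrt F.L :=
          mul_le_mul h2 h3 (Real.sqrt_nonneg _) (Real.sqrt_nonneg _)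
      _ = F.L := Real.mul_self_sqrt hL.le

end Pool.Agent.AFL.H46
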